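import Mathlib

/-!
# MP_a23b08_al: the combinatorial core (finite check)

The skew-symmetric matrix `B0` of the quiver of a triangulation of the closed torus with two punctures,
two vectors `K10`, `K20` of its radical, mutation of states `(B, k1, k2)`, the 32 states reachable from the
initial one, their positions on the 8-cycle, and two maximal green sequences.
-/

set_option autoImplicit false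

namespace MPa23

/-- table lookup -/
def look (l : List (List ℤ)) (a b : ℕ) : ℤ := (l.getD a []).getD b 0

/-- The skew-symmetric matrix of the quiver: `B0 i j = ext¹(S_i, S_j) - ext¹(S_j, S_i)`. -/
def B0 (a b : Fin 6) : ℤ := look

  [[0, 0, 1, -1, -1, 1],
   [0, 0, -1, 1, 1, -1],
   [-1, 1, 0, 1, -1, 0],
   [1, -1, -1, 0, 0, 1],
   [1, -1, 1, 0, 0, -1],
   [-1, 1, 0, -1, 1, 0]] a b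


/-- the radical vector of the first puncture -/
def K10 (a : Fin 6) : ℤ := look [[2, 2, 1, 1, 1, 1]] 0 a

/-- the radical vector of the second puncture -/
def K20 (a : Fin 6) : ℤ := look [[0, 0, 1, 1, 1, 1]] 0 a

/-- Mutation of a skew-symmetric matrix at `i`, `B j i > 0` meaning `ext¹(S_j, S_i) > 0`. -/
def mutB (i : Fin 6) (B : Fin 6 → Fin 6 → ℤ) (a b : Fin 6) : ℤ :=
  if a = i ∨ b = i then - B a b else B a b + max (B b i) 0 * B a i + max (B a i) 0 * B i b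

/-- Mutation at `i` of the coordinates of a vector in the basis of the classes of the simples. -/
def mutK (i : Fin 6) (B : Fin 6 → Fin 6 → ℤ) (k : Fin 6 → ℤ) (a : Fin 6) : ℤ :=
  if a = i then - k i + ∑ j, k j * max (B j i) 0 else k a

/-- Mutation at `i` of the classes of the simples. -/
def mutC (i : Fin 6) (B : Fin 6 → Fin 6 → ℤ) (c : Fin 6 → Fin 6 → ℤ) (a : Fin 6) : Fin 6 → ℤ :=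
  if a = i then fun r => - c i r else fun r => c a r + max (B a i) 0 * c i r

/-- The skew form on `ℤ⁶`. -/
def om (x y : Fin 6 → ℤ) : ℤ := ∑ a, ∑ b, x a * B0 a b * y b

/-- the 32 states: the two radical vectors -/
def tabK1 : List (List ℤ) :=
  [[1, 1, 1, 1, 2, 2],
   [1, 1, 1, 2, 2, 2],
   [0, 1, 1, 1, 1, 2],
   [1, 1, 2, 2, 2, 2],
   [0, 0, 1, 1, 1, 1],
   [1, 1, 2, 2, 2, 2],
   [0, 0, 0, 1, 1, 1],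
   [1, 1, 2, 2, 2, 2],
   [0, 0, 0, 0, 1, 1],
   [1, 1, 1, 2, 2, 2],
   [-1, 0, 0, 0, 0, 1],
   [1, 1, 1, 1, 2, 2],
   [-1, -1, 0, 0, 0, 0],
   [0, 1, 1, 1, 1, 2],
   [-1, -1, -1, 0, 0, 0],
   [0, 0, 1, 1, 1, 1],
   [-1, -1, -1, -1, 0, 0],
   [0, 0, 0, 1, 1, 1],
   [-2, -1, -1, -1, -1, 0],
   [0, 0, 0, 0, 1, 1],
   [-2, -2, -1, -1, -1, -1],
   [-1, 0, 0, 0, 0, 1],
   [-2, -2, -2, -1, -1, -1],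
   [-1, -1, 0, 0, 0, 0],
   [-2, -2, -2, -2, -1, -1],
   [-1, -1, -1, 0, 0, 0],
   [-2, -2, -2, -2, -1, -1],
   [-1, -1, -1, -1, 0, 0],
   [-2, -2, -2, -2, -1, -1],
   [-2, -1, -1, -1, -1, 0],
   [-2, -2, -2, -1, -1, -1],
   [-2, -2, -1, -1, -1, -1]]

/-- the 32 states: the two radical vectors -/
def tabK2 : List (List ℤ) :=
  [[1, 1, 1, 1, 0, 0],
   [1, 1, 1, 0, 0, 0],
   [2, 1, 1, 1, 1, 0],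
   [1, 1, 0, 0, 0, 0],
   [2, 2, 1, 1, 1, 1],
   [-1, 1, 0, 0, 0, 0],
   [2, 2, 2, 1, 1, 1],
   [-1, -1, 0, 0, 0, 0],
   [2, 2, 2, 2, 1, 1],
   [-1, -1, -1, 0, 0, 0],
   [1, 2, 2, 2, 2, 1],
   [-1, -1, -1, -1, 0, 0],
   [1, 1, 2, 2, 2, 2],
   [-2, -1, -1, -1, -1, 0],
   [1, 1, 1, 2, 2, 2],
   [-2, -2, -1, -1, -1, -1],
   [1, 1, 1, 1, 2, 2],
   [-2, -2, -2, -1, -1, -1],
   [0, 1, 1, 1, 1, 2],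
   [-2, -2, -2, -2, -1, -1],
   [0, 0, 1, 1, 1, 1],
   [-1, -2, -2, -2, -2, -1],
   [0, 0, 0, 1, 1, 1],
   [-1, -1, -2, -2, -2, -2],
   [0, 0, 0, 0, 1, 1],
   [-1, -1, -1, -2, -2, -2],
   [0, 0, 0, 0, -1, 1],
   [-1, -1, -1, -1, -2, -2],
   [0, 0, 0, 0, -1, -1],
   [0, -1, -1, -1, -1, -2],
   [0, 0, 0, -1, -1, -1],
   [0, 0, -1, -1, -1, -1]]

/-- the 32 states: the matrices -/
def tabB : List (List (List ℤ)) :=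
  [[[0, -1, 0, 1, -1, 1], [1, 0, -1, 0, 1, -1], [0, 1, 0, -1, -1, 1], [-1, 0, 1, 0, 1, -1], [1, -1, 1, -1, 0, 0], [-1, 1, -1, 1, 0, 0]],
   [[0, -1, 1, -1, 0, 1], [1, 0, -1, 0, 1, -1], [-1, 1, 0, 1, -1, 0], [1, 0, -1, 0, -1, 1], [0, -1, 1, 1, 0, -1], [-1, 1, 0, -1, 1, 0]],
   [[0, -1, -1, 1, 1, 0], [1, 0, 0, -2, 0, 1], [1, 0, 0, 0, -2, 1], [-1, 2, 0, 0, 0, -1], [-1, 0, 2, 0, 0, -1], [0, -1, -1, 1, 1, 0]],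
   [[0, 0, 0, 0, -1, 1], [0, 0, 0, 0, 1, -1], [0, 0, 0, -2, 1, 1], [0, 0, 2, 0, -1, -1], [1, -1, -1, 1, 0, 0], [-1, 1, -1, 1, 0, 0]],
   [[0, 0, -1, -1, 1, 1], [0, 0, 1, 1, -1, -1], [1, -1, 0, 0, -1, 1], [1, -1, 0, 0, 1, -1], [-1, 1, 1, -1, 0, 0], [-1, 1, -1, 1, 0, 0]],
   [[0, 0, 0, 1, 0, -1], [0, 0, 0, 1, 0, -1], [0, 0, 0, 1, -2, 1], [-1, -1, -1, 0, 1, 1], [0, 0, 2, -1, 0, -1], [1, 1, -1, -1, 1, 0]],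
   [[0, -1, 1, -1, 0, 1], [1, 0, -1, 1, -1, 0], [-1, 1, 0, 0, 1, -1], [1, -1, 0, 0, 1, -1], [0, 1, -1, -1, 0, 1], [-1, 0, 1, 1, -1, 0]],
   [[0, 0, 0, 0, -1, 1], [0, 0, 0, 0, 1, -1], [0, 0, 0, -2, 1, 1], [0, 0, 2, 0, -1, -1], [1, -1, -1, 1, 0, 0], [-1, 1, -1, 1, 0, 0]],
   [[0, -2, 1, 1, 0, 0], [2, 0, -1, -1, 0, 0], [-1, 1, 0, 0, -1, 1], [-1, 1, 0, 0, 1, -1], [0, 0, 1, -1, 0, 0], [0, 0, -1, 1, 0, 0]],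
   [[0, -1, 1, -1, 0, 1], [1, 0, -1, 0, 1, -1], [-1, 1, 0, 1, -1, 0], [1, 0, -1, 0, -1, 1], [0, -1, 1, 1, 0, -1], [-1, 1, 0, -1, 1, 0]],
   [[0, 0, 1, 0, -1, 0], [0, 0, 1, -2, 1, 0], [-1, -1, 0, 1, 1, -1], [0, 2, -1, 0, -1, 0], [1, -1, -1, 1, 0, 1], [0, 0, 1, 0, -1, 0]],
   [[0, -1, 0, 1, -1, 1], [1, 0, -1, 0, 1, -1], [0, 1, 0, -1, -1, 1], [-1, 0, 1, 0, 1, -1], [1, -1, 1, -1, 0, 0], [-1, 1, -1, 1, 0, 0]],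
   [[0, 0, 0, 0, -1, 1], [0, 0, 0, 0, 1, -1], [0, 0, 0, -2, 1, 1], [0, 0, 2, 0, -1, -1], [1, -1, -1, 1, 0, 0], [-1, 1, -1, 1, 0, 0]],
   [[0, -1, -1, 1, 1, 0], [1, 0, 0, -2, 0, 1], [1, 0, 0, 0, -2, 1], [-1, 2, 0, 0, 0, -1], [-1, 0, 2, 0, 0, -1], [0, -1, -1, 1, 1, 0]],
   [[0, -1, 1, -1, 0, 1], [1, 0, -1, 0, 1, -1], [-1, 1, 0, 1, -1, 0], [1, 0, -1, 0, -1, 1], [0, -1, 1, 1, 0, -1], [-1, 1, 0, -1, 1, 0]],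
   [[0, 0, -1, -1, 1, 1], [0, 0, 1, 1, -1, -1], [1, -1, 0, 0, -1, 1], [1, -1, 0, 0, 1, -1], [-1, 1, 1, -1, 0, 0], [-1, 1, -1, 1, 0, 0]],
   [[0, -1, 0, 1, -1, 1], [1, 0, -1, 0, 1, -1], [0, 1, 0, -1, -1, 1], [-1, 0, 1, 0, 1, -1], [1, -1, 1, -1, 0, 0], [-1, 1, -1, 1, 0, 0]],
   [[0, -1, 1, -1, 0, 1], [1, 0, -1, 1, -1, 0], [-1, 1, 0, 0, 1, -1], [1, -1, 0, 0, 1, -1], [0, 1, -1, -1, 0, 1], [-1, 0, 1, 1, -1, 0]],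
   [[0, -1, -1, 1, 1, 0], [1, 0, 0, -2, 0, 1], [1, 0, 0, 0, -2, 1], [-1, 2, 0, 0, 0, -1], [-1, 0, 2, 0, 0, -1], [0, -1, -1, 1, 1, 0]],
   [[0, -2, 1, 1, 0, 0], [2, 0, -1, -1, 0, 0], [-1, 1, 0, 0, -1, 1], [-1, 1, 0, 0, 1, -1], [0, 0, 1, -1, 0, 0], [0, 0, -1, 1, 0, 0]],
   [[0, 0, -1, -1, 1, 1], [0, 0, 1, 1, -1, -1], [1, -1, 0, 0, -1, 1], [1, -1, 0, 0, 1, -1], [-1, 1, 1, -1, 0, 0], [-1, 1, -1, 1, 0, 0]],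
   [[0, 0, 1, 0, -1, 0], [0, 0, 1, -2, 1, 0], [-1, -1, 0, 1, 1, -1], [0, 2, -1, 0, -1, 0], [1, -1, -1, 1, 0, 1], [0, 0, 1, 0, -1, 0]],
   [[0, -1, 1, -1, 0, 1], [1, 0, -1, 1, -1, 0], [-1, 1, 0, 0, 1, -1], [1, -1, 0, 0, 1, -1], [0, 1, -1, -1, 0, 1], [-1, 0, 1, 1, -1, 0]],
   [[0, 0, 0, 0, -1, 1], [0, 0, 0, 0, 1, -1], [0, 0, 0, -2, 1, 1], [0, 0, 2, 0, -1, -1], [1, -1, -1, 1, 0, 0], [-1, 1, -1, 1, 0, 0]],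
   [[0, -2, 1, 1, 0, 0], [2, 0, -1, -1, 0, 0], [-1, 1, 0, 0, -1, 1], [-1, 1, 0, 0, 1, -1], [0, 0, 1, -1, 0, 0], [0, 0, -1, 1, 0, 0]],
   [[0, -1, 1, -1, 0, 1], [1, 0, -1, 0, 1, -1], [-1, 1, 0, 1, -1, 0], [1, 0, -1, 0, -1, 1], [0, -1, 1, 1, 0, -1], [-1, 1, 0, -1, 1, 0]],
   [[0, 1, -2, 1, 0, 0], [-1, 0, 1, 1, -1, -1], [2, -1, 0, -1, 0, 0], [-1, -1, 1, 0, 1, 1], [0, 1, 0, -1, 0, 0], [0, 1, 0, -1, 0, 0]],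
   [[0, -1, 0, 1, -1, 1], [1, 0, -1, 0, 1, -1], [0, 1, 0, -1, -1, 1], [-1, 0, 1, 0, 1, -1], [1, -1, 1, -1, 0, 0], [-1, 1, -1, 1, 0, 0]],
   [[0, -2, 1, 1, 0, 0], [2, 0, -1, -1, 0, 0], [-1, 1, 0, 0, -1, 1], [-1, 1, 0, 0, 1, -1], [0, 0, 1, -1, 0, 0], [0, 0, -1, 1, 0, 0]],
   [[0, -1, -1, 1, 1, 0], [1, 0, 0, -2, 0, 1], [1, 0, 0, 0, -2, 1], [-1, 2, 0, 0, 0, -1], [-1, 0, 2, 0, 0, -1], [0, -1, -1, 1, 1, 0]],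
   [[0, -1, 1, -1, 0, 1], [1, 0, -1, 1, -1, 0], [-1, 1, 0, 0, 1, -1], [1, -1, 0, 0, 1, -1], [0, 1, -1, -1, 0, 1], [-1, 0, 1, 1, -1, 0]],
   [[0, 0, -1, -1, 1, 1], [0, 0, 1, 1, -1, -1], [1, -1, 0, 0, -1, 1], [1, -1, 0, 0, 1, -1], [-1, 1, 1, -1, 0, 0], [-1, 1, -1, 1, 0, 0]]]

/-- matrix of the state `s` -/
def sB (s : Fin 32) (a b : Fin 6) : ℤ := look (tabB.getD s []) a b

/-- first vector of the state `s` -/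
def sK1 (s : Fin 32) (a : Fin 6) : ℤ := look tabK1 s a

/-- second vector of the state `s` -/
def sK2 (s : Fin 32) (a : Fin 6) : ℤ := look tabK2 s a

/-- targets of the mutations -/
def tabT : List (List ℕ) :=
  [[1, 1, 1, 1, 2, 2],
   [3, 3, 3, 0, 0, 0],
   [0, 2, 2, 2, 2, 4],
   [5, 5, 3, 3, 1, 1],
   [2, 2, 6, 6, 6, 6],
   [3, 7, 5, 5, 5, 5],
   [4, 4, 4, 8, 8, 8],
   [5, 5, 7, 7, 9, 9],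
   [8, 8, 6, 6, 10, 10],
   [7, 7, 7, 11, 11, 11],
   [8, 10, 10, 10, 10, 12],
   [9, 9, 9, 9, 13, 13],
   [10, 10, 12, 12, 14, 14],
   [11, 13, 13, 13, 13, 15],
   [12, 12, 12, 16, 16, 16],
   [13, 13, 17, 17, 17, 17],
   [14, 14, 14, 14, 18, 18],
   [15, 15, 15, 19, 19, 19],
   [16, 18, 18, 18, 18, 20],
   [19, 19, 17, 17, 21, 21],
   [18, 18, 22, 22, 22, 22],
   [19, 21, 21, 21, 21, 23],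
   [20, 20, 20, 24, 24, 24],
   [21, 21, 23, 23, 25, 25],
   [24, 24, 22, 22, 26, 26],
   [23, 23, 23, 27, 27, 27],
   [26, 26, 26, 26, 24, 28],
   [25, 25, 25, 25, 29, 29],
   [28, 28, 30, 30, 26, 26],
   [27, 29, 29, 29, 29, 31],
   [31, 31, 31, 28, 28, 28],
   [29, 29, 30, 30, 30, 30]]

/-- permutations of the mutations -/
def tabP : List (List (List ℕ)) :=
  [[[1, 2, 3, 0, 5, 4], [0, 2, 3, 4, 5, 1], [0, 1, 3, 4, 2, 5], [0, 1, 2, 3, 4, 5], [4, 0, 2, 1, 3, 5], [5, 1, 3, 2, 0, 4]],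
   [[1, 2, 5, 3, 0, 4], [0, 2, 4, 5, 3, 1], [0, 1, 3, 4, 2, 5], [0, 1, 2, 3, 4, 5], [0, 1, 4, 2, 3, 5], [0, 5, 1, 2, 3, 4]],
   [[1, 3, 2, 4, 0, 5], [0, 2, 3, 4, 1, 5], [0, 1, 4, 3, 2, 5], [0, 2, 3, 4, 1, 5], [0, 1, 4, 3, 2, 5], [0, 5, 1, 2, 3, 4]],
   [[0, 1, 2, 4, 3, 5], [1, 0, 2, 5, 3, 4], [0, 1, 3, 2, 4, 5], [0, 1, 3, 2, 4, 5], [0, 1, 4, 2, 3, 5], [0, 5, 1, 4, 2, 3]],
   [[1, 4, 5, 3, 2, 0], [0, 2, 3, 4, 5, 1], [0, 1, 2, 3, 4, 5], [0, 1, 3, 2, 5, 4], [0, 4, 1, 3, 2, 5], [0, 5, 1, 2, 3, 4]],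
   [[0, 1, 2, 4, 3, 5], [0, 1, 2, 4, 5, 3], [0, 1, 4, 3, 2, 5], [0, 1, 5, 4, 2, 3], [0, 1, 4, 3, 2, 5], [0, 1, 4, 5, 3, 2]],
   [[1, 2, 0, 4, 5, 3], [0, 2, 3, 4, 5, 1], [0, 1, 2, 3, 4, 5], [0, 1, 2, 3, 5, 4], [1, 2, 0, 4, 3, 5], [2, 0, 1, 5, 4, 3]],
   [[1, 0, 2, 4, 3, 5], [0, 1, 2, 5, 3, 4], [0, 1, 3, 2, 4, 5], [0, 1, 3, 2, 4, 5], [0, 1, 4, 2, 3, 5], [0, 5, 1, 4, 2, 3]],
   [[1, 0, 2, 3, 4, 5], [1, 0, 2, 3, 4, 5], [0, 1, 3, 2, 4, 5], [0, 1, 2, 3, 5, 4], [4, 0, 3, 1, 2, 5], [5, 0, 2, 1, 3, 4]],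
   [[1, 2, 5, 3, 0, 4], [0, 2, 4, 5, 3, 1], [0, 1, 3, 4, 2, 5], [0, 1, 2, 3, 4, 5], [0, 1, 4, 2, 3, 5], [0, 5, 1, 2, 3, 4]],
   [[1, 3, 2, 4, 5, 0], [0, 3, 2, 1, 4, 5], [0, 4, 3, 1, 2, 5], [0, 3, 2, 1, 4, 5], [0, 3, 4, 2, 1, 5], [0, 5, 1, 3, 4, 2]],
   [[1, 2, 3, 0, 5, 4], [0, 2, 3, 4, 5, 1], [0, 1, 3, 4, 2, 5], [0, 1, 2, 3, 4, 5], [4, 0, 2, 1, 3, 5], [5, 1, 3, 2, 0, 4]],
   [[1, 2, 4, 3, 5, 0], [0, 2, 5, 3, 4, 1], [0, 1, 3, 2, 4, 5], [0, 1, 3, 2, 4, 5], [0, 1, 4, 2, 3, 5], [0, 5, 1, 4, 2, 3]],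
   [[1, 3, 2, 4, 0, 5], [0, 2, 3, 4, 1, 5], [0, 1, 4, 3, 2, 5], [0, 2, 3, 4, 1, 5], [0, 1, 4, 3, 2, 5], [0, 5, 1, 2, 3, 4]],
   [[1, 2, 5, 3, 0, 4], [0, 2, 4, 5, 3, 1], [0, 1, 3, 4, 2, 5], [0, 1, 2, 3, 4, 5], [0, 1, 4, 2, 3, 5], [0, 5, 1, 2, 3, 4]],
   [[1, 4, 5, 3, 2, 0], [0, 2, 3, 4, 5, 1], [0, 1, 2, 3, 4, 5], [0, 1, 3, 2, 5, 4], [0, 4, 1, 3, 2, 5], [0, 5, 1, 2, 3, 4]],
   [[1, 2, 3, 0, 5, 4], [0, 2, 3, 4, 5, 1], [0, 1, 3, 4, 2, 5], [0, 1, 2, 3, 4, 5], [4, 0, 2, 1, 3, 5], [5, 1, 3, 2, 0, 4]],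
   [[1, 2, 0, 4, 5, 3], [0, 2, 3, 4, 5, 1], [0, 1, 2, 3, 4, 5], [0, 1, 2, 3, 5, 4], [1, 2, 0, 4, 3, 5], [2, 0, 1, 5, 4, 3]],
   [[1, 3, 2, 4, 0, 5], [0, 2, 3, 4, 1, 5], [0, 1, 4, 3, 2, 5], [0, 2, 3, 4, 1, 5], [0, 1, 4, 3, 2, 5], [0, 5, 1, 2, 3, 4]],
   [[1, 0, 2, 3, 4, 5], [1, 0, 2, 3, 4, 5], [0, 1, 3, 2, 4, 5], [0, 1, 2, 3, 5, 4], [4, 0, 3, 1, 2, 5], [5, 0, 2, 1, 3, 4]],
   [[1, 4, 5, 3, 2, 0], [0, 2, 3, 4, 5, 1], [0, 1, 2, 3, 4, 5], [0, 1, 3, 2, 5, 4], [0, 4, 1, 3, 2, 5], [0, 5, 1, 2, 3, 4]],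
   [[1, 3, 2, 4, 5, 0], [0, 3, 2, 1, 4, 5], [0, 4, 3, 1, 2, 5], [0, 3, 2, 1, 4, 5], [0, 3, 4, 2, 1, 5], [0, 5, 1, 3, 4, 2]],
   [[1, 2, 0, 4, 5, 3], [0, 2, 3, 4, 5, 1], [0, 1, 2, 3, 4, 5], [0, 1, 2, 3, 5, 4], [1, 2, 0, 4, 3, 5], [2, 0, 1, 5, 4, 3]],
   [[1, 2, 4, 3, 5, 0], [0, 2, 5, 3, 4, 1], [0, 1, 3, 2, 4, 5], [0, 1, 3, 2, 4, 5], [0, 1, 4, 2, 3, 5], [0, 5, 1, 4, 2, 3]],
   [[1, 0, 2, 3, 4, 5], [1, 0, 2, 3, 4, 5], [0, 1, 3, 2, 4, 5], [0, 1, 2, 3, 5, 4], [0, 3, 1, 2, 4, 5], [0, 2, 1, 3, 5, 4]],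
   [[1, 2, 5, 3, 0, 4], [0, 2, 4, 5, 3, 1], [0, 1, 3, 4, 2, 5], [0, 1, 2, 3, 4, 5], [0, 1, 4, 2, 3, 5], [0, 5, 1, 2, 3, 4]],
   [[2, 1, 0, 3, 4, 5], [3, 2, 0, 1, 4, 5], [2, 1, 0, 3, 4, 5], [2, 3, 1, 0, 4, 5], [0, 2, 1, 3, 5, 4], [0, 2, 1, 3, 4, 5]],
   [[1, 2, 3, 0, 5, 4], [0, 2, 3, 4, 5, 1], [0, 1, 3, 4, 2, 5], [0, 1, 2, 3, 4, 5], [4, 0, 2, 1, 3, 5], [5, 1, 3, 2, 0, 4]],
   [[1, 0, 2, 3, 4, 5], [1, 0, 2, 3, 4, 5], [0, 1, 3, 2, 4, 5], [0, 1, 2, 3, 5, 4], [0, 3, 1, 2, 5, 4], [0, 2, 1, 3, 4, 5]],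
   [[1, 3, 2, 4, 0, 5], [0, 2, 3, 4, 1, 5], [0, 1, 4, 3, 2, 5], [0, 2, 3, 4, 1, 5], [0, 1, 4, 3, 2, 5], [0, 5, 1, 2, 3, 4]],
   [[1, 2, 0, 4, 5, 3], [0, 2, 3, 4, 5, 1], [0, 1, 2, 3, 4, 5], [0, 1, 2, 3, 5, 4], [1, 2, 0, 4, 3, 5], [2, 0, 1, 5, 4, 3]],
   [[1, 4, 5, 3, 2, 0], [0, 2, 3, 4, 5, 1], [0, 1, 2, 3, 4, 5], [0, 1, 3, 2, 5, 4], [0, 4, 1, 3, 2, 5], [0, 5, 1, 2, 3, 4]]]

/-- target of the mutation of the state `s` at `i` -/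
def tgt (s : Fin 32) (i : Fin 6) : Fin 32 := Fin.ofNat 32 ((tabT.getD s []).getD i 0)

/-- permutation of the mutation of the state `s` at `i` -/
def prm (s : Fin 32) (i a : Fin 6) : Fin 6 := Fin.ofNat 6 (((tabP.getD s []).getD i []).getD a 0)

theorem prm_inj : ∀ (s : Fin 32) (i a b : Fin 6), prm s i a = prm s i b → a = b := by
  decide +kernel

theorem trans_B : ∀ (s : Fin 32) (i a b : Fin 6),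
    mutB i (sB s) (prm s i a) (prm s i b) = sB (tgt s i) a b := by
  decide +kernel

theorem trans_K1 : ∀ (s : Fin 32) (i a : Fin 6),
    mutK i (sB s) (sK1 s) (prm s i a) = sK1 (tgt s i) a := by
  decide +kernel

theorem trans_K2 : ∀ (s : Fin 32) (i a : Fin 6),
    mutK i (sB s) (sK2 s) (prm s i a) = sK2 (tgt s i) a := by
  decide +kernel

/-- the sign of a vector: `1` if all its coordinates are `≥ 0`, `-1` if they are all `≤ 0`, else `0` -/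
def sg (k : Fin 6 → ℤ) : ℤ := if ∀ a, 0 ≤ k a then 1 else if ∀ a, k a ≤ 0 then -1 else 0

/-- the position on the 8-cycle -/
def posv (x y : ℤ) : ZMod 8 :=
  if x = 1 ∧ y = 1 then 0 else if x = 0 ∧ y = 1 then 1 else if x = -1 ∧ y = 1 then 2
  else if x = -1 ∧ y = 0 then 3 else if x = -1 ∧ y = -1 then 4 else if x = 0 ∧ y = -1 then 5
  else if x = 1 ∧ y = -1 then 6 else 7

/-- the position of a state on the 8-cycle -/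
def pos (k1 k2 : Fin 6 → ℤ) : ZMod 8 := posv (sg k1) (sg k2)

theorem pos_step : ∀ (s : Fin 32) (i : Fin 6),
    pos (sK1 (tgt s i)) (sK2 (tgt s i)) - pos (sK1 s) (sK2 s) = 0 ∨
    pos (sK1 (tgt s i)) (sK2 (tgt s i)) - pos (sK1 s) (sK2 s) = 1 ∨
    pos (sK1 (tgt s i)) (sK2 (tgt s i)) - pos (sK1 s) (sK2 s) = -1 := by
  decide +kernel

end MPa23
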