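import Pool.Agent.Lib_MP_a23b08_al.Core

/-!
# MP_a23b08_al: two maximal green sequences with winding numbers -4 and 4 (tables)
-/

set_option autoImplicit false

namespace MPa23

/-- the sequence A of mutations -/
def seqA : List ℕ := [4, 2, 5, 3, 2, 4, 0, 1, 5, 3, 2, 4, 3, 5, 1, 0]

/-- the classes of the simples along the sequence A -/
def tabCA : List (List (List ℤ)) :=
  [[[1, 0, 0, 0, 0, 0], [0, 1, 0, 0, 0, 0], [0, 0, 1, 0, 0, 0], [0, 0, 0, 1, 0, 0], [0, 0, 0, 0, 1, 0], [0, 0, 0, 0, 0, 1]],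
   [[1, 0, 0, 0, 0, 0], [0, 1, 0, 0, 1, 0], [0, 0, 1, 0, 0, 0], [0, 0, 0, 1, 0, 0], [0, 0, 0, 0, -1, 0], [0, 0, 0, 0, 1, 1]],
   [[1, 0, 1, 0, 0, 0], [0, 1, 0, 0, 1, 0], [0, 0, -1, 0, 0, 0], [0, 0, 0, 1, 0, 0], [0, 0, 0, 0, -1, 0], [0, 0, 1, 0, 1, 1]],
   [[1, 0, 1, 0, 0, 0], [0, 1, 0, 0, 1, 0], [0, 0, 0, 0, 1, 1], [0, 0, 0, 1, 0, 0], [0, 0, 0, 0, -1, 0], [0, 0, -1, 0, -1, -1]],
   [[1, 0, 1, 0, 0, 0], [0, 1, 0, 1, 1, 0], [0, 0, 0, 0, 1, 1], [0, 0, 0, -1, 0, 0], [0, 0, 0, 0, -1, 0], [0, 0, -1, 0, -1, -1]],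
   [[1, 0, 1, 0, 0, 0], [0, 1, 0, 1, 1, 0], [0, 0, 0, 0, -1, -1], [0, 0, 0, -1, 0, 0], [0, 0, 0, 0, 0, 1], [0, 0, -1, 0, 0, 0]],
   [[1, 0, 1, 0, 0, 1], [0, 1, 0, 1, 1, 0], [0, 0, 0, 0, -1, 0], [0, 0, 0, -1, 0, 0], [0, 0, 0, 0, 0, -1], [0, 0, -1, 0, 0, 0]],
   [[-1, 0, -1, 0, 0, -1], [0, 1, 0, 1, 1, 0], [0, 0, 0, 0, -1, 0], [0, 0, 0, -1, 0, 0], [1, 0, 1, 0, 0, 0], [1, 0, 0, 0, 0, 1]],
   [[-1, 0, -1, 0, 0, -1], [0, -1, 0, -1, -1, 0], [0, 1, 0, 1, 0, 0], [0, 1, 0, 0, 1, 0], [1, 0, 1, 0, 0, 0], [1, 0, 0, 0, 0, 1]],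
   [[0, 0, -1, 0, 0, 0], [0, -1, 0, -1, -1, 0], [1, 1, 0, 1, 0, 1], [0, 1, 0, 0, 1, 0], [1, 0, 1, 0, 0, 0], [-1, 0, 0, 0, 0, -1]],
   [[0, 0, -1, 0, 0, 0], [0, 0, 0, -1, 0, 0], [1, 2, 0, 1, 1, 1], [0, -1, 0, 0, -1, 0], [1, 0, 1, 0, 0, 0], [-1, 0, 0, 0, 0, -1]],
   [[0, 0, -1, 0, 0, 0], [0, 0, 0, -1, 0, 0], [-1, -2, 0, -1, -1, -1], [1, 1, 0, 1, 0, 1], [1, 0, 1, 0, 0, 0], [-1, 0, 0, 0, 0, -1]],
   [[1, 0, 0, 0, 0, 0], [0, 0, 0, -1, 0, 0], [-1, -2, 0, -1, -1, -1], [1, 1, 0, 1, 0, 1], [-1, 0, -1, 0, 0, 0], [-1, 0, 0, 0, 0, -1]],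
   [[1, 0, 0, 0, 0, 0], [0, 0, 0, -1, 0, 0], [0, -1, 0, 0, -1, 0], [-1, -1, 0, -1, 0, -1], [-1, 0, -1, 0, 0, 0], [0, 1, 0, 1, 0, 0]],
   [[1, 0, 0, 0, 0, 0], [0, 1, 0, 0, 0, 0], [0, -1, 0, 0, -1, 0], [-1, 0, 0, 0, 0, -1], [-1, 0, -1, 0, 0, 0], [0, -1, 0, -1, 0, 0]],
   [[1, 0, 0, 0, 0, 0], [0, -1, 0, 0, 0, 0], [0, 0, 0, 0, -1, 0], [-1, 0, 0, 0, 0, -1], [-1, 0, -1, 0, 0, 0], [0, 0, 0, -1, 0, 0]],
   [[-1, 0, 0, 0, 0, 0], [0, -1, 0, 0, 0, 0], [0, 0, 0, 0, -1, 0], [0, 0, 0, 0, 0, -1], [0, 0, -1, 0, 0, 0], [0, 0, 0, -1, 0, 0]]]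

/-- the first radical vector along the sequence A -/
def tabK1A : List (List ℤ) :=
  [[2, 2, 1, 1, 1, 1],
   [2, 2, 1, 1, 2, 1],
   [2, 2, 2, 1, 2, 1],
   [2, 2, 2, 1, 2, 1],
   [2, 2, 2, 1, 2, 1],
   [2, 2, 1, 1, 2, 1],
   [2, 2, 1, 1, 1, 1],
   [0, 2, 1, 1, 1, 1],
   [0, 0, 1, 1, 1, 1],
   [0, 0, 1, 1, 1, 0],
   [0, 0, 1, 0, 1, 0],
   [0, 0, -1, 0, 1, 0],
   [0, 0, -1, 0, -1, 0],
   [0, 0, -1, -1, -1, 0],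
   [0, 0, -1, -1, -1, -1],
   [0, -2, -1, -1, -1, -1],
   [-2, -2, -1, -1, -1, -1]]

/-- the second radical vector along the sequence A -/
def tabK2A : List (List ℤ) :=
  [[0, 0, 1, 1, 1, 1],
   [0, 0, 1, 1, 0, 1],
   [0, 0, 0, 1, 0, 1],
   [0, 0, 0, 1, 0, -1],
   [0, 0, 0, -1, 0, -1],
   [0, 0, -1, -1, 0, -1],
   [0, 0, -1, -1, -1, -1],
   [-2, 0, -1, -1, -1, -1],
   [-2, -2, -1, -1, -1, -1],
   [-2, -2, -1, -1, -1, -2],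
   [-2, -2, -1, -2, -1, -2],
   [-2, -2, -1, -2, -1, -2],
   [-2, -2, -1, -2, -1, -2],
   [-2, -2, -1, -1, -1, -2],
   [-2, -2, -1, -1, -1, -1],
   [-2, 0, -1, -1, -1, -1],
   [0, 0, -1, -1, -1, -1]]

/-- the `r`-th mutation of the sequence A -/
def iA (r : ℕ) : Fin 6 := Fin.ofNat 6 (seqA.getD r 0)

/-- the class of the `a`-th simple after `r` mutations of the sequence A -/
def cA (r : ℕ) (a b : Fin 6) : ℤ := look (tabCA.getD r []) a b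

/-- coordinates of the first radical vector after `r` mutations -/
def k1A (r : ℕ) (a : Fin 6) : ℤ := look tabK1A r a

/-- coordinates of the second radical vector after `r` mutations -/
def k2A (r : ℕ) (a : Fin 6) : ℤ := look tabK2A r a

theorem cA_zero : ∀ a b : Fin 6, cA 0 a b = if a = b then 1 else 0 := by decide +kernel

theorem cA_green : ∀ r : Fin 16, ∀ b : Fin 6, 0 ≤ cA r (iA r) b := by decide +kernel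

theorem cA_succ : ∀ (r : Fin 16) (a b : Fin 6),
    mutC (iA r) (fun x y => om (cA r x) (cA r y)) (cA r) a b = cA (r + 1) a b := by
  decide +kernel

theorem k1A_eq : ∀ (r : Fin 17) (b : Fin 6), ∑ a, k1A r a * cA r a b = K10 b := by decide +kernel

theorem k2A_eq : ∀ (r : Fin 17) (b : Fin 6), ∑ a, k2A r a * cA r a b = K20 b := by decide +kernel

/-- the final permutation of the sequence A -/
def fA (a : Fin 6) : Fin 6 := Fin.ofNat 6 (([0, 1, 4, 5, 2, 3] : List ℕ).getD a 0)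

theorem cA_last : ∀ a b : Fin 6, cA 16 a b = if b = fA a then -1 else 0 := by decide +kernel

theorem fA_surj : ∀ b : Fin 6, ∃ a : Fin 6, fA a = b := by decide +kernel

/-- the sequence B of mutations -/
def seqB : List ℕ := [1, 0, 5, 3, 4, 2, 3, 5, 0, 1, 4, 3, 2, 5, 3, 4]

/-- the classes of the simples along the sequence B -/
def tabCB : List (List (List ℤ)) :=
  [[[1, 0, 0, 0, 0, 0], [0, 1, 0, 0, 0, 0], [0, 0, 1, 0, 0, 0], [0, 0, 0, 1, 0, 0], [0, 0, 0, 0, 1, 0], [0, 0, 0, 0, 0, 1]],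
   [[1, 0, 0, 0, 0, 0], [0, -1, 0, 0, 0, 0], [0, 1, 1, 0, 0, 0], [0, 0, 0, 1, 0, 0], [0, 0, 0, 0, 1, 0], [0, 1, 0, 0, 0, 1]],
   [[-1, 0, 0, 0, 0, 0], [0, -1, 0, 0, 0, 0], [0, 1, 1, 0, 0, 0], [1, 0, 0, 1, 0, 0], [1, 0, 0, 0, 1, 0], [0, 1, 0, 0, 0, 1]],
   [[-1, 0, 0, 0, 0, 0], [0, 0, 0, 0, 0, 1], [0, 1, 1, 0, 0, 0], [1, 1, 0, 1, 0, 1], [1, 0, 0, 0, 1, 0], [0, -1, 0, 0, 0, -1]],
   [[-1, 0, 0, 0, 0, 0], [0, 0, 0, 0, 0, 1], [1, 2, 1, 1, 0, 1], [-1, -1, 0, -1, 0, -1], [1, 0, 0, 0, 1, 0], [1, 0, 0, 1, 0, 0]],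
   [[0, 0, 0, 0, 1, 0], [0, 0, 0, 0, 0, 1], [1, 2, 1, 1, 0, 1], [-1, -1, 0, -1, 0, -1], [-1, 0, 0, 0, -1, 0], [1, 0, 0, 1, 0, 0]],
   [[0, 0, 0, 0, 1, 0], [0, 0, 0, 0, 0, 1], [-1, -2, -1, -1, 0, -1], [0, 1, 1, 0, 0, 0], [-1, 0, 0, 0, -1, 0], [1, 0, 0, 1, 0, 0]],
   [[0, 0, 0, 0, 1, 0], [0, 1, 1, 0, 0, 1], [-1, -1, 0, -1, 0, -1], [0, -1, -1, 0, 0, 0], [-1, 0, 0, 0, -1, 0], [1, 0, 0, 1, 0, 0]],
   [[1, 0, 0, 1, 1, 0], [0, 1, 1, 0, 0, 1], [0, -1, 0, 0, 0, -1], [0, -1, -1, 0, 0, 0], [-1, 0, 0, 0, -1, 0], [-1, 0, 0, -1, 0, 0]],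
   [[-1, 0, 0, -1, -1, 0], [0, 1, 1, 0, 0, 1], [0, -1, 0, 0, 0, -1], [0, -1, -1, 0, 0, 0], [0, 0, 0, 1, 0, 0], [0, 0, 0, 0, 1, 0]],
   [[-1, 0, 0, -1, -1, 0], [0, -1, -1, 0, 0, -1], [0, 0, 1, 0, 0, 0], [0, 0, 0, 0, 0, 1], [0, 0, 0, 1, 0, 0], [0, 0, 0, 0, 1, 0]],
   [[-1, 0, 0, 0, -1, 0], [0, -1, -1, 0, 0, -1], [0, 0, 1, 1, 0, 0], [0, 0, 0, 0, 0, 1], [0, 0, 0, -1, 0, 0], [0, 0, 0, 0, 1, 0]],
   [[-1, 0, 0, 0, -1, 0], [0, -1, -1, 0, 0, 0], [0, 0, 1, 1, 0, 1], [0, 0, 0, 0, 0, -1], [0, 0, 0, -1, 0, 0], [0, 0, 0, 0, 1, 0]],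
   [[-1, 0, 0, 0, -1, 0], [0, -1, -1, 0, 0, 0], [0, 0, -1, -1, 0, -1], [0, 0, 1, 1, 0, 0], [0, 0, 0, -1, 0, 0], [0, 0, 0, 0, 1, 0]],
   [[-1, 0, 0, 0, 0, 0], [0, -1, -1, 0, 0, 0], [0, 0, -1, -1, 0, -1], [0, 0, 1, 1, 0, 0], [0, 0, 0, -1, 0, 0], [0, 0, 0, 0, -1, 0]],
   [[-1, 0, 0, 0, 0, 0], [0, -1, -1, 0, 0, 0], [0, 0, 0, 0, 0, -1], [0, 0, -1, -1, 0, 0], [0, 0, 1, 0, 0, 0], [0, 0, 0, 0, -1, 0]],
   [[-1, 0, 0, 0, 0, 0], [0, -1, 0, 0, 0, 0], [0, 0, 0, 0, 0, -1], [0, 0, 0, -1, 0, 0], [0, 0, -1, 0, 0, 0], [0, 0, 0, 0, -1, 0]]]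

/-- the first radical vector along the sequence B -/
def tabK1B : List (List ℤ) :=
  [[2, 2, 1, 1, 1, 1],
   [2, 0, 1, 1, 1, 1],
   [0, 0, 1, 1, 1, 1],
   [0, 0, 1, 1, 1, 0],
   [0, 0, 1, 0, 1, 0],
   [0, 0, 1, 0, -1, 0],
   [0, 0, -1, 0, -1, 0],
   [0, 0, -1, -1, -1, 0],
   [0, 0, -1, -1, -1, -1],
   [-2, 0, -1, -1, -1, -1],
   [-2, -2, -1, -1, -1, -1],
   [-2, -2, -1, -1, -2, -1],
   [-2, -2, -1, -2, -2, -1],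
   [-2, -2, -1, -2, -2, -1],
   [-2, -2, -1, -2, -2, -1],
   [-2, -2, -1, -1, -2, -1],
   [-2, -2, -1, -1, -1, -1]]

/-- the second radical vector along the sequence B -/
def tabK2B : List (List ℤ) :=
  [[0, 0, 1, 1, 1, 1],
   [0, 2, 1, 1, 1, 1],
   [2, 2, 1, 1, 1, 1],
   [2, 2, 1, 1, 1, 2],
   [2, 2, 1, 2, 1, 2],
   [2, 2, 1, 2, 1, 2],
   [2, 2, 1, 2, 1, 2],
   [2, 2, 1, 1, 1, 2],
   [2, 2, 1, 1, 1, 1],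
   [0, 2, 1, 1, 1, 1],
   [0, 0, 1, 1, 1, 1],
   [0, 0, 1, 1, 0, 1],
   [0, 0, 1, 0, 0, 1],
   [0, 0, -1, 0, 0, 1],
   [0, 0, -1, 0, 0, -1],
   [0, 0, -1, -1, 0, -1],
   [0, 0, -1, -1, -1, -1]]

/-- the `r`-th mutation of the sequence B -/
def iB (r : ℕ) : Fin 6 := Fin.ofNat 6 (seqB.getD r 0)

/-- the class of the `a`-th simple after `r` mutations of the sequence B -/
def cB (r : ℕ) (a b : Fin 6) : ℤ := look (tabCB.getD r []) a b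

/-- coordinates of the first radical vector after `r` mutations -/
def k1B (r : ℕ) (a : Fin 6) : ℤ := look tabK1B r a

/-- coordinates of the second radical vector after `r` mutations -/
def k2B (r : ℕ) (a : Fin 6) : ℤ := look tabK2B r a

theorem cB_zero : ∀ a b : Fin 6, cB 0 a b = if a = b then 1 else 0 := by decide +kernel

theorem cB_green : ∀ r : Fin 16, ∀ b : Fin 6, 0 ≤ cB r (iB r) b := by decide +kernel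

theorem cB_succ : ∀ (r : Fin 16) (a b : Fin 6),
    mutC (iB r) (fun x y => om (cB r x) (cB r y)) (cB r) a b = cB (r + 1) a b := by
  decide +kernel

theorem k1B_eq : ∀ (r : Fin 17) (b : Fin 6), ∑ a, k1B r a * cB r a b = K10 b := by decide +kernel

theorem k2B_eq : ∀ (r : Fin 17) (b : Fin 6), ∑ a, k2B r a * cB r a b = K20 b := by decide +kernel

/-- the final permutation of the sequence B -/
def fB (a : Fin 6) : Fin 6 := Fin.ofNat 6 (([0, 1, 5, 3, 2, 4] : List ℕ).getD a 0)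

theorem cB_last : ∀ a b : Fin 6, cB 16 a b = if b = fB a then -1 else 0 := by decide +kernel

theorem fB_surj : ∀ b : Fin 6, ∃ a : Fin 6, fB a = b := by decide +kernel

/-- the lift to `ℤ` of a difference of positions (`0` if the difference is not `0, 1, -1`) -/
def stepOf (p q : ZMod 8) : ℤ := if q - p = 1 then 1 else if q - p = -1 then -1 else 0

theorem windA : ∑ r : Fin 16, stepOf (pos (k1A r) (k2A r)) (pos (k1A (r + 1)) (k2A (r + 1))) = -4 := by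
  decide +kernel

theorem windB : ∑ r : Fin 16, stepOf (pos (k1B r) (k2B r)) (pos (k1B (r + 1)) (k2B (r + 1))) = 4 := by
  decide +kernel

end MPa23
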