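import Pool.Agent.Lib_MP_a23b08_g.GPhiDefs

/-!
# MP_a23b08_al: quivers with potential and their Ginzburg dg algebras (N = 3)
-/

set_option autoImplicit false

open CategoryTheory

namespace GZ

/-- A finite quiver with a (polynomial) potential, i.e. a superpotential of degree `3`: a linear
combination of cyclic paths of length `≥ 3`. As everywhere, the path `[a₁, …, aᵣ]` starts with the
arrow `aᵣ`. -/
structure QP (k : Type) [Field k] where
  /-- vertices -/
  V : Type
  /-- arrows -/
  A : Type
  [decV : DecidableEq V]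
  [finV : Fintype V]
  [decA : DecidableEq A]
  [finA : Fintype A]
  /-- source -/
  src : A → V
  /-- target -/
  tgt : A → V
  /-- the potential -/
  W : List (k × List A)
  /-- the words of the potential are cyclic paths -/
  cyclic : ∀ t ∈ W, ∃ v, IsPath src tgt v v t.2
  /-- the words of the potential have length `≥ 3` -/
  three : ∀ t ∈ W, 3 ≤ t.2.length

attribute [instance] QP.decV QP.finV QP.decA QP.finA

/-- The arrows of the graded quiver of the Ginzburg dg algebra: the arrows `a` (degree `0`),
the arrows `a*` (degree `-1`, in the opposite direction) and a loop `t_v` (degree `-2`) at each vertex. -/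
inductive Gen (V A : Type) : Type
  | arr (a : A) : Gen V A
  | star (a : A) : Gen V A
  | loop (v : V) : Gen V A
  deriving DecidableEq

namespace Gen

variable {V A : Type}

/-- Source of an arrow of the graded quiver. -/
def gsrc (src tgt : A → V) : Gen V A → V
  | arr a => src a
  | star a => tgt a
  | loop v => v

/-- Target of an arrow of the graded quiver. -/
def gtgt (src tgt : A → V) : Gen V A → V
  | arr a => tgt a
  | star a => src a
  | loop v => v

/-- Degree of an arrow of the graded quiver. -/
def gdeg : Gen V A → ℤ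
  | arr _ => 0
  | star _ => -1
  | loop _ => -2

end Gen

/-- The cyclic derivative of a cyclic word `w` with respect to `a`: for each occurrence `w = u a v` of `a`
the word `v u`. -/
def cder {A : Type} [DecidableEq A] (a : A) : List A → List A → List (List A)
  | _, [] => []
  | u, b :: v => if b = a then (v ++ u) :: cder a (u ++ [b]) v else cder a (u ++ [b]) v

variable {k : Type} [Field k]

namespace QP

variable (Q : QP k)

/-- The cyclic derivative `∂W/∂a` of the potential. -/
def dW (a : Q.A) : List (k × List Q.A) := Q.W.flatMap fun t => (cder a [] t.2).map fun u => (t.1, u)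

/-- The differential of the Ginzburg dg algebra: `d a = 0`, `d a* = ∂W/∂a`,
`d t_v = ∑_{a : • → v} a a* - ∑_{a : v → •} a* a`. -/
noncomputable def gdiff : Gen Q.V Q.A → List (k × List (Gen Q.V Q.A))
  | .arr _ => []
  | .star a => (Q.dW a).map fun t => (t.1, t.2.map Gen.arr)
  | .loop v => (Finset.univ.filter fun a => Q.tgt a = v).toList.map
        (fun a => (1, [Gen.arr a, Gen.star a])) ++
      (Finset.univ.filter fun a => Q.src a = v).toList.map fun a => (-1, [Gen.star a, Gen.arr a])

end QP

section

variable {V A : Type}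

lemma isPath_append {src tgt : A → V} {i l j : V} {u w : List A} (hu : IsPath src tgt l j u)
    (hw : IsPath src tgt i l w) : IsPath src tgt i j (u ++ w) := by
  induction u generalizing j with
  | nil =>
    have : l = j := hu
    subst this
    exact hw
  | cons a u ih => exact ⟨hu.1, ih hu.2⟩

lemma isPath_of_append {src tgt : A → V} {i j : V} {u w : List A} (h : IsPath src tgt i j (u ++ w)) :
    ∃ l, IsPath src tgt l j u ∧ IsPath src tgt i l w := by
  induction u generalizing j with
  | nil => exact ⟨j, rfl, h⟩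
  | cons a u ih =>
    obtain ⟨l, h1, h2⟩ := ih h.2
    exact ⟨l, ⟨h.1, h1⟩, h2⟩

lemma cder_path [DecidableEq A] {src tgt : A → V} {i : V} (a : A) (u v : List A)
    (h : IsPath src tgt i i (u ++ v)) : ∀ w ∈ cder a u v, IsPath src tgt (tgt a) (src a) w := by
  induction v generalizing u with
  | nil => simp [cder]
  | cons b v ih =>
    have h' : IsPath src tgt i i ((u ++ [b]) ++ v) := by simpa using h
    intro w hw
    rw [cder] at hw
    split_ifs at hw with hb
    · rcases List.mem_cons.1 hw with rfl | hw
      · subst hb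
        obtain ⟨l, h1, h2⟩ := isPath_of_append h
        obtain ⟨h3, h4⟩ := h2
        rw [h3]
        exact isPath_append h4 h1
      · exact ih _ h' w hw
    · exact ih _ h' w hw

lemma cder_length [DecidableEq A] (a : A) (u v : List A) :
    ∀ w ∈ cder a u v, w.length + 1 = (u ++ v).length := by
  induction v generalizing u with
  | nil => simp [cder]
  | cons b v ih =>
    intro w hw
    rw [cder] at hw
    have h2 : ((u ++ [b]) ++ v).length = (u ++ b :: v).length := by simp
    split_ifs at hw with hb
    · rcases List.mem_cons.1 hw with rfl | hw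
      · simp; omega
      · rw [← h2]
        exact ih _ w hw
    · rw [← h2]
      exact ih _ w hw

lemma isPath_map_arr {src tgt : A → V} {i j : V} {w : List A} (h : IsPath src tgt i j w) :
    IsPath (Gen.gsrc src tgt) (Gen.gtgt src tgt) i j (w.map (Gen.arr (V := V))) := by
  induction w generalizing j with
  | nil => exact h
  | cons a w ih => exact ⟨h.1, ih h.2⟩

lemma degW_map_arr (w : List A) : degW Gen.gdeg (w.map (Gen.arr (V := V))) = 0 := by
  induction w with
  | nil => rfl
  | cons a w ih => simp [Gen.gdeg, ih]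

end

/-- The Ginzburg dg algebra `Γ₃(Q, W)`. -/
noncomputable def ginz (Q : QP k) : QF k where
  V := Q.V
  A := Gen Q.V Q.A
  src := Gen.gsrc Q.src Q.tgt
  tgt := Gen.gtgt Q.src Q.tgt
  deg := Gen.gdeg
  diff := Q.gdiff
  diff_path := by
    intro x t ht
    cases x with
    | arr a => simp [QP.gdiff] at ht
    | star a =>
      simp only [QP.gdiff, QP.dW, List.mem_map, List.mem_flatMap] at ht
      obtain ⟨s, ⟨r, hr, u, hu, rfl⟩, rfl⟩ := ht
      obtain ⟨v, hv⟩ := Q.cyclic r hr
      exact isPath_map_arr (cder_path (i := v) a [] r.2 hv u hu)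
    | loop v =>
      simp only [QP.gdiff, List.mem_append, List.mem_map, Finset.mem_toList, Finset.mem_filter,
        Finset.mem_univ, true_and] at ht
      rcases ht with ⟨a, ha, rfl⟩ | ⟨a, ha, rfl⟩
      · exact ⟨ha, rfl, ha.symm⟩
      · exact ⟨ha, rfl, ha.symm⟩
  diff_deg := by
    intro x t ht
    cases x with
    | arr a => simp [QP.gdiff] at ht
    | star a =>
      simp only [QP.gdiff, List.mem_map] at ht
      obtain ⟨s, -, rfl⟩ := ht
      rw [degW_map_arr]
      rfl
    | loop v =>
      simp only [QP.gdiff, List.mem_append, List.mem_map] at ht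
      rcases ht with ⟨a, -, rfl⟩ | ⟨a, -, rfl⟩
      · rfl
      · rfl

/-- The quiver with potential of the closed torus with two punctures: `6` vertices (the arcs of a
triangulation), `12` arrows

`a₀ : 0 → 2`, `a₁ : 2 → 3`, `a₂ : 3 → 0`, `a₃ : 1 → 4`, `a₄ : 4 → 2`, `a₅ : 2 → 1`,
`a₆ : 0 → 5`, `a₇ : 5 → 4`, `a₈ : 4 → 0`, `a₉ : 1 → 3`, `a₁₀ : 3 → 5`, `a₁₁ : 5 → 1`,

`W = a₂a₁a₀ + a₅a₄a₃ + a₈a₇a₆ + a₁₁a₁₀a₉ - a₄a₇a₁₀a₁ - a₂a₉a₅a₀a₈a₃a₁₁a₆` (the four triangles minus the cycles
around the two punctures). -/
def torus (k : Type) [Field k] : QP k where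
  V := Fin 6
  A := Fin 12
  src := ![0, 2, 3, 1, 4, 2, 0, 5, 4, 1, 3, 5]
  tgt := ![2, 3, 0, 4, 2, 1, 5, 4, 0, 3, 5, 1]
  W := [(1, [2, 1, 0]), (1, [5, 4, 3]), (1, [8, 7, 6]), (1, [11, 10, 9]), (-1, [4, 7, 10, 1]),
    (-1, [2, 9, 5, 0, 8, 3, 11, 6])]
  cyclic := by
    have h : ∀ w ∈ ([[2, 1, 0], [5, 4, 3], [8, 7, 6], [11, 10, 9], [4, 7, 10, 1],
        [2, 9, 5, 0, 8, 3, 11, 6]] : List (List (Fin 12))), ∃ v : Fin 6,
        IsPath ![0, 2, 3, 1, 4, 2, 0, 5, 4, 1, 3, 5] ![2, 3, 0, 4, 2, 1, 5, 4, 0, 3, 5, 1] v v w := by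
      intro w hw
      fin_cases hw
      · exact ⟨0, by simp [IsPath]⟩
      · exact ⟨1, by simp [IsPath]⟩
      · exact ⟨0, by simp [IsPath]⟩
      · exact ⟨1, by simp [IsPath]⟩
      · exact ⟨2, by simp [IsPath]⟩
      · exact ⟨0, by simp [IsPath]⟩
    intro t ht
    refine h t.2 ?_
    have := List.mem_map_of_mem (f := Prod.snd) ht
    simpa using this
  three := by
    intro t ht
    simp only [List.mem_cons, List.not_mem_nil, or_false] at ht
    rcases ht with rfl | rfl | rfl | rfl | rfl | rfl <;> simp

end GZ
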