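import Pool.Agent.Lib_MP_a23b08_al.QP

/-!
# MP_a23b08_al: the Ginzburg dg algebra is a dg algebra (`d ∘ d = 0`)
-/

set_option autoImplicit false

open CategoryTheory

namespace GZ

section

variable {k : Type} [Field k] {A : Type}

lemma toFin_nil : toFin ([] : List (k × List A)) = 0 := rfl

lemma toFin_cons (t : k × List A) (p : List (k × List A)) :
    toFin (t :: p) = Finsupp.single t.2 t.1 + toFin p := rfl

lemma toFin_append (p q : List (k × List A)) : toFin (p ++ q) = toFin p + toFin q := by
  simp [toFin]

lemma toFin_flatMap {B : Type} (l : List B) (f : B → List (k × List A)) :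
    toFin (l.flatMap f) = (l.map fun b => toFin (f b)).sum := by
  induction l with
  | nil => simp [toFin_nil]
  | cons b l ih => simp [toFin_append, ih]

lemma toFin_map {B : Type} (l : List B) (c : B → k) (u : B → List A) :
    toFin (l.map fun b => (c b, u b)) = (l.map fun b => Finsupp.single (u b) (c b)).sum := by
  simp [toFin, Function.comp_def]

end

section

variable {V A : Type} [DecidableEq V] [DecidableEq A] [Fintype A] {G : Type} [AddCommGroup G]

lemma sum_cder_cons (P : A → Prop) [DecidablePred P] (f : A → List A → G) (b : A) (u v : List A) :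
    ∑ a ∈ Finset.univ.filter P, ((cder a u (b :: v)).map (f a)).sum =
      (if P b then f b (v ++ u) else 0) +
        ∑ a ∈ Finset.univ.filter P, ((cder a (u ++ [b]) v).map (f a)).sum := by
  have h : ∀ a, ((cder a u (b :: v)).map (f a)).sum =
      (if b = a then f a (v ++ u) else 0) + ((cder a (u ++ [b]) v).map (f a)).sum := by
    intro a
    rw [cder]
    split_ifs with hb
    · simp
    · simp
  simp only [h, Finset.sum_add_distrib]
  congr 1
  rw [Finset.sum_filter]
  simp only [← ite_and]
  rw [Finset.sum_eq_single b]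
  · simp
  · intro a _ hab
    rw [if_neg]
    rintro ⟨-, h⟩
    exact hab h.symm
  · simp

lemma tele (src tgt : A → V) (v : V) (F : List A → G) (i : V) (w : List A) :
    ∀ (u : List A) (l : V), IsPath src tgt l i u → IsPath src tgt i l w →
    ∑ a ∈ Finset.univ.filter (fun a => tgt a = v), ((cder a u w).map fun y => F (a :: y)).sum -
      ∑ a ∈ Finset.univ.filter (fun a => src a = v), ((cder a u w).map fun y => F (y ++ [a])).sum =
      (if l = v then F (w ++ u) else 0) - (if i = v then F (u ++ w) else 0) := by
  induction w with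
  | nil =>
    intro u l _ hl
    have : i = l := hl
    subst this
    simp [cder]
  | cons b w ih =>
    intro u l hu hl
    rw [sum_cder_cons (fun a => tgt a = v) (fun a y => F (a :: y)),
      sum_cder_cons (fun a => src a = v) (fun a y => F (y ++ [a]))]
    have h := ih (u ++ [b]) (src b) (isPath_append hu ⟨hl.1, rfl⟩) hl.2
    have h1 : tgt b = l := hl.1
    have e : ∀ x y z t : G, x + y - (z + t) = x - z + (y - t) := by intros; abel
    rw [e, h, h1]
    simp only [List.cons_append, List.append_assoc, List.nil_append]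
    abel

end

variable {k : Type} [Field k]

/-- `dWord` with explicit degree and differential. -/
def dW0 {A : Type} (deg : A → ℤ) (diff : A → List (k × List A)) : List A → List (k × List A)
  | [] => []
  | a :: w => (diff a).map (fun t => (t.1, t.2 ++ w)) ++
      (dW0 deg diff w).map (fun t => (sg k (deg a) * t.1, a :: t.2))

lemma dWord_eq (Γ : QF k) (w : List Γ.A) : dWord Γ w = dW0 Γ.deg Γ.diff w := by
  induction w with
  | nil => rfl
  | cons a w ih => rw [dWord, dW0, ih]

lemma dPoly_eq (Γ : QF k) (p : List (k × List Γ.A)) : dPoly Γ p =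
    p.flatMap fun t => (dW0 Γ.deg Γ.diff t.2).map fun s => (t.1 * s.1, s.2) := by
  rw [dPoly]
  simp only [dWord_eq]

section

variable (Q : QP k)

lemma dW0_map_arr (w : List Q.A) :
    dW0 Gen.gdeg Q.gdiff (w.map (Gen.arr (V := Q.V))) = [] := by
  induction w with
  | nil => rfl
  | cons a w ih => simp [dW0, ih, QP.gdiff]

lemma dW0_arr_star (a : Q.A) : dW0 Gen.gdeg Q.gdiff [Gen.arr a, Gen.star a] =
    (Q.dW a).map fun t => (t.1, (Gen.arr a : Gen Q.V Q.A) :: t.2.map Gen.arr) := by
  simp [dW0, QP.gdiff, Gen.gdeg, Function.comp_def]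

lemma dW0_star_arr (a : Q.A) : dW0 Gen.gdeg Q.gdiff [Gen.star a, Gen.arr a] =
    (Q.dW a).map fun t => (t.1, t.2.map Gen.arr ++ [(Gen.arr a : Gen Q.V Q.A)]) := by
  simp [dW0, QP.gdiff, Function.comp_def]

lemma sum_dW {G : Type} [AddCommGroup G] (a : Q.A) (f : k → List Q.A → G) :
    ((Q.dW a).map fun t => f t.1 t.2).sum =
      (Q.W.map fun t => ((cder a [] t.2).map fun u => f t.1 u).sum).sum := by
  rw [QP.dW]
  induction Q.W with
  | nil => simp
  | cons t W ih => simp only [List.flatMap_cons, List.map_append, List.sum_append, ih, List.map_map,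
      Function.comp_def, List.map_cons, List.sum_cons]

lemma sum_sum_list {B G : Type} [AddCommGroup G] (s : Finset B) {X : Type} (l : List X)
    (f : B → X → G) : ∑ b ∈ s, (l.map fun t => f b t).sum = (l.map fun t => ∑ b ∈ s, f b t).sum := by
  induction l with
  | nil => simp
  | cons x l ih => simp [Finset.sum_add_distrib, ih]

lemma dd_loop (v : Q.V) : toFin ((Q.gdiff (Gen.loop v)).flatMap fun t =>
    (dW0 Gen.gdeg Q.gdiff t.2).map fun s => (t.1 * s.1, s.2)) = 0 := by
  have e1 : ∀ a : Q.A, toFin ((dW0 Gen.gdeg Q.gdiff [Gen.arr a, Gen.star a]).map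
      fun s => ((1 : k) * s.1, s.2)) = (Q.W.map fun t => ((cder a [] t.2).map fun u =>
        Finsupp.single ((a :: u).map (Gen.arr (V := Q.V))) t.1).sum).sum := by
    intro a
    rw [dW0_arr_star, List.map_map, ← sum_dW Q a fun c u =>
      Finsupp.single ((a :: u).map (Gen.arr (V := Q.V))) c]
    simp only [Function.comp_def, one_mul]
    exact toFin_map _ _ _
  have e2 : ∀ a : Q.A, toFin ((dW0 Gen.gdeg Q.gdiff [Gen.star a, Gen.arr a]).map
      fun s => ((-1 : k) * s.1, s.2)) = -(Q.W.map fun t => ((cder a [] t.2).map fun u =>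
        Finsupp.single ((u ++ [a]).map (Gen.arr (V := Q.V))) t.1).sum).sum := by
    intro a
    rw [dW0_star_arr, List.map_map, ← sum_dW Q a fun c u =>
      Finsupp.single ((u ++ [a]).map (Gen.arr (V := Q.V))) c]
    simp only [Function.comp_def]
    rw [toFin_map]
    induction Q.dW a with
    | nil => simp
    | cons t l ih =>
      simp only [List.map_cons, List.sum_cons, ih]
      simp [add_comm]
  rw [show Q.gdiff (Gen.loop v) = (Finset.univ.filter fun a => Q.tgt a = v).toList.map
        (fun a => (1, [Gen.arr a, Gen.star a])) ++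
      (Finset.univ.filter fun a => Q.src a = v).toList.map fun a => (-1, [Gen.star a, Gen.arr a])
    from rfl]
  rw [List.flatMap_append, toFin_append, toFin_flatMap, toFin_flatMap, List.map_map, List.map_map]
  simp only [Function.comp_def]
  simp only [e1, e2]
  rw [Finset.sum_map_toList, Finset.sum_map_toList]
  simp only [Finset.sum_neg_distrib]
  rw [sum_sum_list, sum_sum_list, ← sub_eq_add_neg]
  have h : ∀ t ∈ Q.W, (∑ a ∈ Finset.univ.filter (fun a => Q.tgt a = v),
      ((cder a [] t.2).map fun u => Finsupp.single ((a :: u).map (Gen.arr (V := Q.V))) t.1).sum) =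
      ∑ a ∈ Finset.univ.filter (fun a => Q.src a = v),
      ((cder a [] t.2).map fun u => Finsupp.single ((u ++ [a]).map (Gen.arr (V := Q.V))) t.1).sum := by
    intro t ht
    obtain ⟨i, hi⟩ := Q.cyclic t ht
    have := tele Q.src Q.tgt v (fun w => Finsupp.single (w.map (Gen.arr (V := Q.V))) t.1) i t.2
      [] i rfl hi
    simp only [List.append_nil, List.nil_append, sub_self] at this
    exact sub_eq_zero.1 this
  rw [List.map_congr_left h, sub_self]

end

/-- The Ginzburg dg algebra is a dg algebra with the properties needed in the sequel. -/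
theorem ginz_nice (Q : QP k) : (ginz Q).Nice where
  finV := (inferInstance : Finite Q.V)
  finA := by
    show Finite (Gen Q.V Q.A)
    have : Function.Surjective (fun x : Q.A ⊕ Q.A ⊕ Q.V => match x with
      | .inl a => (Gen.arr a : Gen Q.V Q.A)
      | .inr (.inl a) => Gen.star a
      | .inr (.inr v) => Gen.loop v) := by
      rintro (a | a | v)
      · exact ⟨.inl a, rfl⟩
      · exact ⟨.inr (.inl a), rfl⟩
      · exact ⟨.inr (.inr v), rfl⟩
    exact Finite.of_surjective _ this
  deg_nonpos := by
    rintro (a | a | v)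
    · exact le_refl _
    · show (-1 : ℤ) ≤ 0
      norm_num
    · show (-2 : ℤ) ≤ 0
      norm_num
  dd := by
    intro x
    rw [dPoly_eq]
    cases x with
    | arr a => rfl
    | star a =>
      show toFin ((Q.gdiff (Gen.star a)).flatMap fun t =>
        (dW0 Gen.gdeg Q.gdiff t.2).map fun s => (t.1 * s.1, s.2)) = 0
      rw [toFin_flatMap]
      apply List.sum_eq_zero
      intro x hx
      obtain ⟨t, ht, rfl⟩ := List.mem_map.1 hx
      obtain ⟨s, -, rfl⟩ := List.mem_map.1 ht
      simp only [dW0_map_arr]
      rfl
    | loop v => exact dd_loop Q v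
  minimal := by
    intro x (t : k × List (Gen Q.V Q.A)) ht
    cases x with
    | arr a => exact absurd ht (List.not_mem_nil)
    | star a =>
      have ht' : t ∈ Q.gdiff (Gen.star a) := ht
      simp only [QP.gdiff, QP.dW, List.mem_map, List.mem_flatMap] at ht'
      obtain ⟨s, ⟨r, hr, u, hu, rfl⟩, rfl⟩ := ht'
      have h1 := cder_length a [] r.2 u hu
      have h2 := Q.three r hr
      simp only [List.nil_append] at h1
      have h3 : (u.map (Gen.arr (V := Q.V))).length = u.length := List.length_map _
      show 2 ≤ (u.map (Gen.arr (V := Q.V))).length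
      omega
    | loop v =>
      have ht' : t ∈ Q.gdiff (Gen.loop v) := ht
      simp only [QP.gdiff, List.mem_append, List.mem_map] at ht'
      rcases ht' with ⟨a, -, rfl⟩ | ⟨a, -, rfl⟩
      · exact le_refl _
      · exact le_refl _

end GZ
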