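import Pool.Agent.Lib_MP_a23b08_al.MgsTab

/-!
# MP_a23b08_al: states up to permutation, steps of the winding number
-/

set_option autoImplicit false

namespace MPa23

/-- `(B, k1, k2)` is one of the 32 states, up to a permutation of the indices. -/
def IsSt (B : Fin 6 → Fin 6 → ℤ) (k1 k2 : Fin 6 → ℤ) : Prop :=
  ∃ (s : Fin 32) (σ : Fin 6 ≃ Fin 6), (∀ a b, B (σ a) (σ b) = sB s a b) ∧
    (∀ a, k1 (σ a) = sK1 s a) ∧ ∀ a, k2 (σ a) = sK2 s a

/-- the permutation of the initial state -/
def p0 (a : Fin 6) : Fin 6 := Fin.ofNat 6 (([2, 4, 5, 3, 0, 1] : List ℕ).getD a 0)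

theorem isSt_init : IsSt B0 K10 K20 := by
  have hinj : Function.Injective p0 := by
    have : ∀ a b : Fin 6, p0 a = p0 b → a = b := by decide +kernel
    exact fun a b h => this a b h
  refine ⟨0, Equiv.ofBijective p0 (Finite.injective_iff_bijective.mp hinj), ?_, ?_, ?_⟩
  · show ∀ a b, B0 (p0 a) (p0 b) = sB 0 a b
    decide +kernel
  · show ∀ a, K10 (p0 a) = sK1 0 a
    decide +kernel
  · show ∀ a, K20 (p0 a) = sK2 0 a
    decide +kernel

theorem mutB_comp (σ : Fin 6 ≃ Fin 6) (i : Fin 6) (B : Fin 6 → Fin 6 → ℤ) (a b : Fin 6) :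
    mutB (σ i) B (σ a) (σ b) = mutB i (fun x y => B (σ x) (σ y)) a b := by
  simp [mutB]

theorem mutK_comp (σ : Fin 6 ≃ Fin 6) (i : Fin 6) (B : Fin 6 → Fin 6 → ℤ) (k : Fin 6 → ℤ) (a : Fin 6) :
    mutK (σ i) B k (σ a) = mutK i (fun x y => B (σ x) (σ y)) (fun x => k (σ x)) a := by
  simp only [mutK, EmbeddingLike.apply_eq_iff_eq]
  rw [← Equiv.sum_comp σ]

theorem IsSt.mut {B : Fin 6 → Fin 6 → ℤ} {k1 k2 : Fin 6 → ℤ} (h : IsSt B k1 k2) (i : Fin 6) :
    IsSt (mutB i B) (mutK i B k1) (mutK i B k2) := by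
  obtain ⟨s, σ, hB, h1, h2⟩ := h
  obtain ⟨j, rfl⟩ := σ.surjective i
  have hinj : Function.Injective (prm s j) := fun a b h => prm_inj s j a b h
  let τ : Fin 6 ≃ Fin 6 := Equiv.ofBijective (prm s j) (Finite.injective_iff_bijective.mp hinj)
  have hB' : (fun x y => B (σ x) (σ y)) = sB s := by
    funext x y
    exact hB x y
  have h1' : (fun x => k1 (σ x)) = sK1 s := by
    funext x
    exact h1 x
  have h2' : (fun x => k2 (σ x)) = sK2 s := by
    funext x
    exact h2 x
  refine ⟨tgt s j, τ.trans σ, ?_, ?_, ?_⟩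
  · intro a b
    rw [Equiv.trans_apply, Equiv.trans_apply, mutB_comp, hB']
    exact trans_B s j a b
  · intro a
    rw [Equiv.trans_apply, mutK_comp, hB', h1']
    exact trans_K1 s j a
  · intro a
    rw [Equiv.trans_apply, mutK_comp, hB', h2']
    exact trans_K2 s j a

theorem sg_comp (σ : Fin 6 ≃ Fin 6) (k : Fin 6 → ℤ) : sg (fun a => k (σ a)) = sg k := by
  have h1 : (∀ a, 0 ≤ k (σ a)) ↔ ∀ a, 0 ≤ k a :=
    ⟨fun h a => by simpa using h (σ.symm a), fun h a => h _⟩
  have h2 : (∀ a, k (σ a) ≤ 0) ↔ ∀ a, k a ≤ 0 :=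
    ⟨fun h a => by simpa using h (σ.symm a), fun h a => h _⟩
  simp only [sg]
  rw [if_congr h1 rfl (if_congr h2 rfl rfl)]

theorem pos_comp (σ : Fin 6 ≃ Fin 6) (k1 k2 : Fin 6 → ℤ) :
    pos (fun a => k1 (σ a)) (fun a => k2 (σ a)) = pos k1 k2 := by
  simp only [pos, sg_comp]

/-- a mutation moves the position by at most one step -/
theorem IsSt.step {B : Fin 6 → Fin 6 → ℤ} {k1 k2 : Fin 6 → ℤ} (h : IsSt B k1 k2) (i : Fin 6) :
    pos (mutK i B k1) (mutK i B k2) - pos k1 k2 = 0 ∨
    pos (mutK i B k1) (mutK i B k2) - pos k1 k2 = 1 ∨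
    pos (mutK i B k1) (mutK i B k2) - pos k1 k2 = -1 := by
  obtain ⟨s, σ, hB, h1, h2⟩ := h
  obtain ⟨j, rfl⟩ := σ.surjective i
  have hinj : Function.Injective (prm s j) := fun a b h => prm_inj s j a b h
  let τ : Fin 6 ≃ Fin 6 := Equiv.ofBijective (prm s j) (Finite.injective_iff_bijective.mp hinj)
  have hB' : (fun x y => B (σ x) (σ y)) = sB s := by
    funext x y
    exact hB x y
  have h1' : (fun x => k1 (σ x)) = sK1 s := by
    funext x
    exact h1 x
  have h2' : (fun x => k2 (σ x)) = sK2 s := by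
    funext x
    exact h2 x
  have e1 : (fun a => mutK (σ j) B k1 ((τ.trans σ) a)) = sK1 (tgt s j) := by
    funext a
    rw [Equiv.trans_apply, mutK_comp, hB', h1']
    exact trans_K1 s j a
  have e2 : (fun a => mutK (σ j) B k2 ((τ.trans σ) a)) = sK2 (tgt s j) := by
    funext a
    rw [Equiv.trans_apply, mutK_comp, hB', h2']
    exact trans_K2 s j a
  have := pos_step s j
  rw [← e1, ← e2, pos_comp, ← h1', ← h2', pos_comp] at this
  exact this

/-- mutation of skew-symmetric matrices is an involution -/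
theorem mutB_mutB (i : Fin 6) (B : Fin 6 → Fin 6 → ℤ) (h : ∀ a b, B a b = - B b a) :
    mutB i (mutB i B) = B := by
  funext a b
  have hii : B i i = 0 := by
    have := h i i
    omega
  by_cases ha : a = i
  · subst ha
    simp [mutB]
  · by_cases hb : b = i
    · subst hb
      simp [mutB]
    · simp only [mutB, ha, hb, or_self, if_false, or_true, true_or, if_true]
      have h1 : ∀ x : ℤ, max x 0 - max (-x) 0 = x := by
        intro x
        rcases le_total 0 x with hx | hx
        · rw [max_eq_left hx, max_eq_right (by omega)]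
          ring
        · rw [max_eq_right hx, max_eq_left (by omega)]
          ring
      have h2 := h1 (B b i)
      have h3 := h1 (B a i)
      have h4 : B i b = - B b i := h i b
      rw [h4]
      have h5 : max (B b i) 0 = B b i + max (-B b i) 0 := by linarith
      have h6 : max (B a i) 0 = B a i + max (-B a i) 0 := by linarith
      rw [h5, h6]
      ring

/-- mutation of radical vectors is an involution -/
theorem mutK_mutK (i : Fin 6) (B : Fin 6 → Fin 6 → ℤ) (k : Fin 6 → ℤ) (h : ∀ a b, B a b = - B b a)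
    (hk : ∑ j, k j * B j i = 0) : mutK i (mutB i B) (mutK i B k) = k := by
  funext a
  have hii : B i i = 0 := by
    have := h i i
    omega
  by_cases ha : a = i
  · subst ha
    simp only [mutK, if_true]
    have h1 : ∀ x : ℤ, max x 0 - max (-x) 0 = x := by
      intro x
      rcases le_total 0 x with hx | hx
      · rw [max_eq_left hx, max_eq_right (by omega)]
        ring
      · rw [max_eq_right hx, max_eq_left (by omega)]
        ring
    have h2 : ∀ j, (if j = a then -k a + ∑ j, k j * max (B j a) 0 else k j) * max (mutB a B j a) 0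
        = k j * max (- B j a) 0 := by
      intro j
      by_cases hj : j = a
      · subst hj
        simp [mutB, hii]
      · simp [mutB, hj]
    rw [Finset.sum_congr rfl fun j _ => h2 j]
    have h3 : ∑ j, k j * max (B j a) 0 - ∑ j, k j * max (- B j a) 0 = 0 := by
      rw [← Finset.sum_sub_distrib]
      refine Eq.trans (Finset.sum_congr rfl fun j _ => ?_) hk
      rw [← mul_sub, h1]
    linarith
  · simp [mutK, ha]

theorem stepOf_cast {p q : ZMod 8} (h : q - p = 0 ∨ q - p = 1 ∨ q - p = -1) :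
    ((stepOf p q : ℤ) : ZMod 8) = q - p := by
  revert h p q
  decide +kernel

theorem stepOf_abs (p q : ZMod 8) : |stepOf p q| ≤ 1 := by
  unfold stepOf
  split_ifs <;> norm_num

end MPa23
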